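import Pool.Agent.Helper58.SF.StG

/-!
# Project SF (MP_a45945_gt), module CRV: the data of the family of discs exist
-/

set_option autoImplicit false

namespace Pool.Agent.Helper10.SF

open Set Topology Pool.Agent.Helper13.TR Pool.Agent.Helper58.SF
open Pool.Agent.Helper13.TW (IsArc Spl IsSCC dch Chn Splt GT CSy MP Val LR MCell StARB StARX StSCL
  StUAR StINF StLIN StAC1 StSDM StLRC StBF StMD1 StMD2 StMD3)

/-- a small compact connected neighbourhood of a point in a closed subspace -/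
private lemma small_set {P : Type} [MetricSpace P] [LocallyCompactSpace P] (T W : Set P)
    (hT : IsClosed T) (hlp : LocallyPathConnectedSpace ↥T) (c : P) (hcT : c ∈ T)
    (hW : IsOpen W) (hcW : c ∈ W) :
    ∃ C2 U2 : Set P, IsCompact C2 ∧ C2 ⊆ W ∧ C2 ⊆ T ∧ IsPreconnected C2 ∧ IsOpen U2 ∧ c ∈ U2 ∧
      U2 ∩ T ⊆ C2 := by
  have hlc : LocallyCompactSpace ↥T := hT.isClosedEmbedding_subtypeVal.locallyCompactSpace
  have hW' : IsOpen (Subtype.val ⁻¹' W : Set ↥T) := hW.preimage continuous_subtype_val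
  obtain ⟨K, hK, hcK, hKW⟩ := exists_compact_subset hW' (show (⟨c, hcT⟩ : ↥T) ∈ _ from hcW)
  have hO : IsOpen (pathComponentIn (interior K) (⟨c, hcT⟩ : ↥T)) :=
    isOpen_interior.pathComponentIn _
  have hcO : (⟨c, hcT⟩ : ↥T) ∈ pathComponentIn (interior K) (⟨c, hcT⟩ : ↥T) :=
    mem_pathComponentIn_self hcK
  have hpc := (isPathConnected_pathComponentIn hcK).isConnected.isPreconnected.closure
  have hcl : closure (pathComponentIn (interior K) (⟨c, hcT⟩ : ↥T)) ⊆ K :=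
    closure_minimal (pathComponentIn_subset.trans interior_subset) hK.isClosed
  have hcom : IsCompact (closure (pathComponentIn (interior K) (⟨c, hcT⟩ : ↥T))) :=
    hK.of_isClosed_subset isClosed_closure hcl
  obtain ⟨U2, oU2, hU2⟩ := isOpen_induced_iff.1 hO
  refine ⟨Subtype.val '' closure (pathComponentIn (interior K) (⟨c, hcT⟩ : ↥T)), U2,
    hcom.image continuous_subtype_val, ?_, ?_,
    hpc.image _ continuous_subtype_val.continuousOn, oU2, ?_, ?_⟩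
  · rintro _ ⟨y, hy, rfl⟩
    exact hKW (hcl hy)
  · rintro _ ⟨y, _, rfl⟩
    exact y.2
  · have h1 : (⟨c, hcT⟩ : ↥T) ∈ (Subtype.val ⁻¹' U2 : Set ↥T) := by rw [hU2]; exact hcO
    exact h1
  · rintro y ⟨hy, hyT⟩
    have h1 : (⟨y, hyT⟩ : ↥T) ∈ (Subtype.val ⁻¹' U2 : Set ↥T) := hy
    rw [hU2] at h1
    exact ⟨⟨y, hyT⟩, subset_closure h1, rfl⟩

/-- the cutoff function -/
private lemma cutoff {P : Type} [MetricSpace P] (T U2 : Set P) (hT : IsClosed T) (oU2 : IsOpen U2)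
    (c : P) (hc : c ∈ U2) :
    ∃ (chi : P → ℝ) (O1 : Set P), Continuous chi ∧ (∀ y, 0 ≤ chi y ∧ chi y ≤ 1) ∧
      (∀ y ∈ T, y ∉ U2 → chi y = 0) ∧ IsOpen O1 ∧ c ∈ O1 ∧ ∀ y ∈ O1, y ∈ T → chi y = 1 := by
  obtain ⟨ε, hε, hball⟩ := Metric.isOpen_iff.1 oU2 c hc
  have hA : IsClosed (T ∩ U2ᶜ) := hT.inter oU2.isClosed_compl
  have hB : IsClosed (Metric.closedBall c (ε / 2) ∩ T) := Metric.isClosed_closedBall.inter hT
  have hd : Disjoint (T ∩ U2ᶜ) (Metric.closedBall c (ε / 2) ∩ T) := by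
    rw [Set.disjoint_left]
    rintro y ⟨_, h2⟩ ⟨h3, _⟩
    apply h2
    apply hball
    rw [Metric.mem_ball]
    rw [Metric.mem_closedBall] at h3
    linarith
  obtain ⟨f, f0, f1, f2⟩ := exists_continuous_zero_one_of_isClosed hA hB hd
  refine ⟨f, Metric.ball c (ε / 2), f.continuous, fun y => ⟨(f2 y).1, (f2 y).2⟩, ?_,
    Metric.isOpen_ball, Metric.mem_ball_self (by linarith), ?_⟩
  · intro y hy hyU
    exact f0 ⟨hy, hyU⟩
  · intro y hy hyT
    exact f1 ⟨Metric.ball_subset_closedBall hy, hyT⟩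

theorem hCRV : StLFT → StEXW → StSMW → StHTF → StCNB → StLPL → StBEX → StWNX → StINS → StSCD →
    StTWO → StWD → StAC1 → StARB → StSCL → StPSH → StMON → StCON → StSDA → StFLW → StCRV := by
  intro hLFT hEXW hSMW hHTF hCNB hLPL hBEX hWNX hINS hSCD hTWO _hWD hAC1 hARB _hSCL hPSH hMON hCON
    hSDA hFLW P _ r R dg gb x₀ a a' b ha haa hax hxb hb
  have sb : SB P r R dg := gb.toSB
  have fl : Flow P r R := sb.box.toFlow
  have hlcP := sb.lco
  have hRa : Continuous (R a) := (hFLW P r R fl).1 a ha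
  have hab : a < b := by linarith
  have ha1 : a < 1 := by linarith
  have rc₀ : r (R a x₀) = a := by
    rw [fl.rR a x₀ ha]
    exact min_eq_left (by linarith)
  -- the sets `V0` and `V'`
  obtain ⟨V0, oV0, cV0, -, hV0⟩ := sb.lh (R a x₀) univ isOpen_univ (mem_univ _)
  have bV0 : ∀ z ∈ cin V0 1, bd 0 z = 0 → ∃ e : Ch P 2, bd 1 e = z := by
    intro z hz hb0
    obtain ⟨e, _, he⟩ := hV0 z hz hb0
    exact ⟨e, he⟩
  obtain ⟨V', oV', cV', subV, hV'⟩ := (hSMW P r R dg gb).1 (R a x₀) V0 oV0 cV0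
  obtain ⟨e₁, he₁, hbe₁, hWe₁⟩ := hEXW P r R dg gb (R a x₀) V' oV' cV'
  obtain ⟨m1, -, -, m4, -, -⟩ := hMON P
  have hz1 : bd 1 e₁ ∈ cin ({y : P | r y = a} ∩ V') 1 := by
    have h1 := m4 _ 1 e₁ he₁
    rwa [rc₀] at h1
  have hz0 : bd 0 (bd 1 e₁) = 0 := (hSDA P).1 0 e₁
  obtain ⟨Qz, kQz, hQz, minQz⟩ := hCON.2 P 1 (bd 1 e₁)
  have qz1 := minQz _ hz1
  have qz2 := minQz _ hbe₁
  have hT : IsClosed {y : P | r y = a} := isClosed_eq fl.rc continuous_const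
  -- the set `C2`
  have hW : IsOpen (V' \ Qz) := oV'.sdiff kQz.isClosed
  obtain ⟨C2, U2, kC2, c2W, c2T, pC2, oU2, cU2, hU2⟩ := small_set {y : P | r y = a} (V' \ Qz) hT
    (hLPL P r R dg sb a ha ha1) (R a x₀) rc₀ hW ⟨cV', fun h => qz2 h rfl⟩
  have cC2 : R a x₀ ∈ C2 := hU2 ⟨cU2, rc₀⟩
  have hO : IsOpen (V' \ C2) := oV'.sdiff kC2.isClosed
  have hzO : bd 1 e₁ ∈ cin ({y : P | r y = a} ∩ (V' \ C2)) 1 := by
    refine m1 _ _ 1 ?_ hQz
    intro y hy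
    exact ⟨(qz1 hy).1, (qz1 hy).2, fun h => (c2W h).2 hy⟩
  -- the lift to the level `b`
  obtain ⟨xb, hxbU, rxb⟩ := (hBEX P r R dg sb).1 (R a x₀) b (by rw [rc₀]; exact hab.le) hb
  have Rxb : R a xb = R a x₀ := by
    have h1 := hxbU.2
    rwa [rc₀] at h1
  obtain ⟨zb, hzb, hzb0, -, hWzb⟩ := hLFT P r R dg gb a b (R a x₀) xb (V' \ C2) V0 (bd 1 e₁) ha hab
    hb rc₀ rxb Rxb hO (sdiff_subset.trans subV) bV0 hzO hz0 hbe₁
  rw [hWe₁] at hWzb
  -- the surface `S_b`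
  obtain ⟨lpS, pcS, hwn⟩ := hWNX P r R dg gb a (fun _ => b) {y : P | r y = b} ha ha1
    continuous_const (fun _ => ⟨hab, hb⟩) rfl
  have oVh : IsOpen (R a ⁻¹' V0) := oV0.preimage hRa
  have hwn' : WN ↥{y : P | r y = b} (wS r R dg {y : P | r y = b})
      (Subtype.val ⁻¹' (R a ⁻¹' V0)) := by
    refine hwn _ oVh ?_
    intro w hw hw0
    obtain ⟨⟨h, -, hh⟩, -⟩ := hHTF P r R dg gb a hRa _ w ha hw hw0
    obtain ⟨p1, -, p3, -⟩ := hPSH P P P ⟨R a, hRa⟩ ⟨R a, hRa⟩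
    have q1 : push ⟨R a, hRa⟩ 1 w ∈ cin V0 1 := p3 V0 1 w (m1 _ _ 1 inter_subset_right hw)
    have q2 : bd 0 (push ⟨R a, hRa⟩ 1 w) = 0 := by rw [p1 0 w, hw0, map_zero]
    obtain ⟨e', he'⟩ := bV0 _ q1 q2
    refine ⟨e' - h, ?_⟩
    rw [map_sub, he', hh]
    abel
  have hi : IsEmbedding (Subtype.val : ↥{y : P | r y = b} → P) := IsEmbedding.subtypeVal
  obtain ⟨Qb, kQb, hQb, minQb⟩ := hCON.2 P 1 zb
  have qb := minQb _ hzb
  have qbS : (Subtype.val : ↥{y : P | r y = b} → P) ''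
      ((Subtype.val : ↥{y : P | r y = b} → P) ⁻¹' Qb) = Qb := by
    apply Set.Subset.antisymm (image_preimage_subset _ _)
    intro y hy
    exact ⟨⟨y, (qb hy).1⟩, hy, rfl⟩
  obtain ⟨s1, -, -, s4, s5, -⟩ := hPSH ↥{y : P | r y = b} P P
    ⟨Subtype.val, continuous_subtype_val⟩ (ContinuousMap.id P)
  obtain ⟨zb', hzb', hpz⟩ := s5 hi ((Subtype.val : ↥{y : P | r y = b} → P) ⁻¹' Qb) 1 zb (by
    have h1 : zb ∈ cin ((Subtype.val : ↥{y : P | r y = b} → P) ''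
      ((Subtype.val : ↥{y : P | r y = b} → P) ⁻¹' Qb)) 1 := by rw [qbS]; exact hQb
    exact h1)
  have kQ' : IsCompact ((Subtype.val : ↥{y : P | r y = b} → P) ⁻¹' Qb) := by
    rw [Subtype.isCompact_iff, qbS]
    exact kQb
  have z0' : bd 0 zb' = 0 := by
    apply s4 Subtype.val_injective 0
    rw [← s1 0 zb', hpz, hzb0, map_zero]
  have hxbQ : (⟨xb, rxb⟩ : ↥{y : P | r y = b}) ∉ (Subtype.val : ↥{y : P | r y = b} → P) ⁻¹' Qb :=
    fun h => (qb h).2.2 Rxb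
  have hWb : W (wS r R dg {y : P | r y = b}) zb' ⟨xb, rxb⟩ ≠ 0 := by
    show Wd (Up r R) (Dn r R) dg (push ⟨Subtype.val, continuous_subtype_val⟩ 1 zb') xb ≠ 0
    rw [hpz, hWzb]
    exact one_ne_zero
  obtain ⟨J', hJQ, hJ, hxJ⟩ := hSCD ↥{y : P | r y = b} (wS r R dg {y : P | r y = b})
    (Subtype.val ⁻¹' (R a ⁻¹' V0)) hwn' _ ⟨xb, rxb⟩ kQ' (fun y hy => subV (qb hy).2.1.1) hxbQ zb'
    hzb' z0' hWb
  have hJV : J' ⊆ (Subtype.val ⁻¹' (R a ⁻¹' V0) : Set ↥{y : P | r y = b}) :=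
    fun y hy => subV (qb (hJQ hy)).2.1.1
  obtain ⟨⟨oI, -⟩, ⟨oO, -⟩, -⟩ := hTWO ↥{y : P | r y = b} (wS r R dg {y : P | r y = b})
    (Subtype.val ⁻¹' (R a ⁻¹' V0)) hwn' J' ⟨hJ, hJV, ⟨xb, rxb⟩, hxJ⟩
  -- the part above `C2` is inside
  have pF : IsPreconnected {y : P | r y = b ∧ R a y ∈ C2} :=
    hCNB.1 P r R dg sb a b C2 ha hab.le hb (fun y hy => c2T hy) pC2
  have eF : (Subtype.val : ↥{y : P | r y = b} → P) '' {y | R a (y : P) ∈ C2} =
      {y : P | r y = b ∧ R a y ∈ C2} := by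
    apply Set.Subset.antisymm
    · rintro _ ⟨y, hy, rfl⟩
      exact ⟨y.2, hy⟩
    · rintro y ⟨h1, h2⟩
      exact ⟨⟨y, h1⟩, h2, rfl⟩
  have pF' : IsPreconnected {y : ↥{y : P | r y = b} | R a (y : P) ∈ C2} := by
    rw [← hi.isInducing.isPreconnected_image, eF]
    exact pF
  have hdis : Disjoint (Ins (wS r R dg {y : P | r y = b}) J')
      (Out (wS r R dg {y : P | r y = b}) J') := by
    rw [Set.disjoint_left]
    intro y h1 h2
    exact h2 (Or.inr h1)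
  have hFI : {y : ↥{y : P | r y = b} | R a (y : P) ∈ C2} ⊆
      Ins (wS r R dg {y : P | r y = b}) J' := by
    refine IsPreconnected.subset_left_of_subset_union oI oO hdis ?_
      ⟨⟨xb, rxb⟩, by show R a xb ∈ C2; rw [Rxb]; exact cC2, hxJ⟩ pF'
    intro y hy
    by_cases h1 : y ∈ Ins (wS r R dg {y : P | r y = b}) J'
    · exact Or.inl h1
    · refine Or.inr ?_
      rintro (h2 | h2)
      · exact (qb (hJQ h2)).2.1.2 hy
      · exact h1 h2
  -- the splitting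
  obtain ⟨p, q, D₁, D₂, hD₁, hD₂, hint, hun⟩ := hJ
  have hinj : Function.Injective (Subtype.val : ↥{y : P | r y = b} → P) :=
    Subtype.val_injective
  have hA₁ : IsArc (Subtype.val '' D₁) (p : P) (q : P) :=
    hARB.2.2.2.2.2 ↥{y : P | r y = b} P D₁ p q Subtype.val hD₁
      continuous_subtype_val.continuousOn hinj.injOn
  have hA₂ : IsArc (Subtype.val '' D₂) (p : P) (q : P) :=
    hARB.2.2.2.2.2 ↥{y : P | r y = b} P D₂ p q Subtype.val hD₂
      continuous_subtype_val.continuousOn hinj.injOn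
  have hSpl : Spl (Subtype.val '' J') (p : P) (q : P) (Subtype.val '' D₁) (Subtype.val '' D₂) := by
    refine ⟨hA₁, hA₂, ?_, ?_⟩
    · rw [← image_inter hinj, hint, image_pair]
    · rw [← image_union, hun]
  obtain ⟨-, g1, g2⟩ := hAC1 P (Subtype.val '' D₁) (p : P) (q : P) hA₁
  obtain ⟨-, g3, g4⟩ := hAC1 P (Subtype.val '' D₂) (p : P) (q : P) hA₂
  have hins := (hINS P r R dg {y : P | r y = b} (R a ⁻¹' V0) pcS hwn' (Subtype.val '' J') p q
    (Subtype.val '' D₁) (Subtype.val '' D₂) _ _ hSpl (by rintro _ ⟨y, _, rfl⟩; exact y.2)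
    (by rintro _ ⟨y, hy, rfl⟩; exact hJV hy) g1 g3 g2 g4).2
  rw [preimage_image_eq J' hinj] at hins
  obtain ⟨chi, O1, chic, chi01, chi0, oO1, xO1, chi1⟩ := cutoff {y : P | r y = a} U2 hT oU2
    (R a x₀) cU2
  refine ⟨V0, V', C2, Subtype.val '' J',
    dch (Subtype.val '' D₁) (p : P) (q : P) - dch (Subtype.val '' D₂) (p : P) (q : P), chi, O1, ?_⟩
  exact {
    gb := gb
    ha := ha
    haa := haa
    hax := hax
    hxb := hxb
    hb := hb
    oV0 := oV0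
    bV0 := bV0
    subV := subV
    zV' := fun z hz hz0 y hy hyV => hV' z hz hz0 y (by rw [rc₀]; exact hy) hyV
    cC2 := kC2
    sC2 := fun y hy => (c2W hy).1
    lC2 := fun y hy => c2T hy
    Jb := by
      rintro _ ⟨y, _, rfl⟩
      exact y.2
    Ja := by
      rintro _ ⟨y, hy, rfl⟩
      exact (qb (hJQ hy)).2.1
    spl := ⟨p, q, _, _, _, _, hSpl, g1, g3, g2, g4, rfl⟩
    win := fun y hy hyC => ((hins ⟨y, hy⟩).1 (hFI hyC)).2
    chic := chic
    chi01 := chi01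
    chi0 := fun y hy hyC => chi0 y hy (fun h => hyC (hU2 ⟨h, hy⟩))
    oO1 := oO1
    xO1 := xO1
    chi1 := chi1 }

end Pool.Agent.Helper10.SF
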