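import Pool.Agent.Helper58.SF.StB

/-!
# Project SF (MP_a45945_gt), module OMA: the linking degree of a 2-chain with a line
-/

set_option autoImplicit false

namespace Pool.Agent.Helper10.SF

open Set Topology Pool.Agent.Helper13.TR Pool.Agent.Helper58.SF
open Pool.Agent.Helper13.TW (IsArc Spl IsSCC dch Chn Splt GT CSy MP Val LR MCell StARB StARX StSCL
  StUAR StINF StLIN StAC1 StSDM)

private lemma dn_ray {P : Type} [TopologicalSpace P] [T2Space P] (r : P → ℝ) (R : ℝ → P → P)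
    (hR : StRAY) (hF : StFLW) (hm : HM P) (h : Flow P r R) (x : P) : PP (Dn r R x) 2 := by
  have hcl : IsClosed (Dn r R x) := ((hF P r R h).2.2.1 x).2.1
  have hrc : Continuous (fun y : P => (r y)⁻¹) := h.rc.inv₀ (fun y => (h.pos y).ne')
  refine hR P hm (Dn r R x) ⟨fun y => (r y)⁻¹, hrc⟩ hcl ?_ ?_ ⟨0, fun w _ => ?_⟩
  · intro y hy y' hy' e
    have e2 : r y = r y' := inv_injective e
    rw [← hy.2, ← hy'.2, e2]
  · intro a b
    rcases le_or_gt b 0 with hb | hb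
    · have he : Dn r R x ∩ (⟨fun y => (r y)⁻¹, hrc⟩ : C(P, ℝ)) ⁻¹' Icc a b = ∅ := by
        rw [Set.eq_empty_iff_forall_notMem]
        rintro y ⟨_, _, h2⟩
        have h3 : (0 : ℝ) < (r y)⁻¹ := inv_pos.2 (h.pos y)
        have h4 : (r y)⁻¹ ≤ b := h2
        linarith
      rw [he]
      exact isCompact_empty
    · have hK : IsCompact ((fun s : ℝ => R s x) '' Icc b⁻¹ (r x)) := by
        refine isCompact_Icc.image_of_continuousOn ?_
        have h1 : Continuous (fun s : ℝ => ((s, x) : ℝ × P)) := by fun_prop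
        exact h.Rc.comp h1.continuousOn (fun s hs => lt_of_lt_of_le (inv_pos.2 hb) hs.1)
      refine hK.of_isClosed_subset (hcl.inter (isClosed_Icc.preimage (ContinuousMap.continuous _))) ?_
      rintro y ⟨hy, _, h2⟩
      have h4 : (r y)⁻¹ ≤ b := h2
      refine ⟨r y, ⟨?_, hy.1⟩, hy.2⟩
      exact inv_le_of_inv_le₀ (h.pos y) h4
  · exact (inv_pos.2 (h.pos w)).le

theorem hOMA : StTUB → StRAY → StMV → StMON → StCON → StSDA → StDEG → StFLW → StOMA := by
  intro hTUB hRAY hMV hMON hCON _hSDA hDEG hFLW P _ r R dg h x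
  haveI := h.met
  have hf : Flow P r R := h.box.toFlow
  obtain ⟨-, -, f3, f4, -, -, -, f8⟩ := hFLW P r R hf
  obtain ⟨hUc, hDc, -, hUD, hUe, hxU, hxD⟩ := f3 x
  obtain ⟨m1, -, -, -, m5, -⟩ := hMON P
  obtain ⟨d1, d2, d3, d4, -⟩ := hDEG P dg h.ws
  have pU : ∀ k, PP (Up r R x) k := by
    intro k
    rw [hUe]
    exact hTUB P r R hf (r x) {x} k (hf.pos x)
  have pD : PP (Dn r R x) 2 := dn_ray r R hRAY hFLW h.hm hf x
  have hcU : ({x} : Set P) ⊆ Up r R x := by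
    rintro _ rfl
    exact hxU
  have hcD : ({x} : Set P) ⊆ Dn r R x := by
    rintro _ rfl
    exact hxD
  -- (3)
  have p3 : ∀ τ e, MVR (Up r R x) (Dn r R x) 2 τ e → τ ∈ Cyc {x} 3 := by
    rintro τ e ⟨b₁, b₂, hb, h1, h2⟩
    have h3 : e - bd 2 b₁ ∈ cin ({x} : Set P)ᶜ 2 := m1 _ _ 2 (compl_subset_compl.2 hcU) h1
    have h4 : e - bd 2 b₂ ∈ cin ({x} : Set P)ᶜ 2 := m1 _ _ 2 (compl_subset_compl.2 hcD) h2
    show bd 2 τ ∈ cin ({x} : Set P)ᶜ 2
    have h5 : bd 2 τ = (e - bd 2 b₂) - (e - bd 2 b₁) := by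
      rw [← hb, map_sub]
      abel
    rw [h5]
    exact Submodule.sub_mem _ h4 h3
  refine ⟨⟨pU 2, pU 3, pD⟩, ?_, p3, ?_⟩
  · intro e he
    have h1 : e ∈ Nul (Up r R x) 2 := pU 2 ((m5 _ _ 2 subset_union_left).1 he)
    have h2 : e ∈ Nul (Dn r R x) 2 := pD ((m5 _ _ 2 subset_union_right).1 he)
    obtain ⟨τ, hτ, hM⟩ := (hMV P (Up r R x) (Dn r R x) hUc hDc 2).2.2.1 e h1 h2
    rw [hUD] at hτ
    exact ⟨τ, hτ, hM⟩
  · intro τ τ' e hM hM'
    have c1 := p3 τ e hM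
    have c2 := p3 τ' e hM'
    obtain ⟨b₁, b₂, hb, h1, h2⟩ := hM
    obtain ⟨b₁', b₂', hb', h1', h2'⟩ := hM'
    -- the two differences
    have hβ₁ : b₁ - b₁' ∈ Cyc (Up r R x) 3 := by
      show bd 2 (b₁ - b₁') ∈ cin (Up r R x)ᶜ 2
      have h5 : bd 2 (b₁ - b₁') = (e - bd 2 b₁') - (e - bd 2 b₁) := by
        rw [map_sub]
        abel
      rw [h5]
      exact Submodule.sub_mem _ h1' h1
    have hβ₂ : b₂ - b₂' ∈ Cyc (Dn r R x) 3 := by
      show bd 2 (b₂ - b₂') ∈ cin (Dn r R x)ᶜ 2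
      have h5 : bd 2 (b₂ - b₂') = (e - bd 2 b₂') - (e - bd 2 b₂) := by
        rw [map_sub]
        abel
      rw [h5]
      exact Submodule.sub_mem _ h2' h2
    have z1 : dg x (b₁ - b₁') = 0 := d4 _ (pU 3) _ hβ₁ x hxU
    have z2 : dg x (b₂ - b₂') = 0 := by
      obtain ⟨K, hK, hcK, -⟩ := hCON.2 P 3 (b₂ - b₂')
      -- a lower bound for the clock on the compact carrier
      obtain ⟨κ, hκ, hκK⟩ : ∃ κ : ℝ, 0 < κ ∧ ∀ y ∈ K, κ ≤ r y := by
        rcases K.eq_empty_or_nonempty with he | hne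
        · exact ⟨1, one_pos, fun y hy => by rw [he] at hy; exact hy.elim⟩
        · obtain ⟨y₀, hy₀, hmin⟩ := hK.exists_isMinOn hne hf.rc.continuousOn
          exact ⟨r y₀, hf.pos y₀, fun y hy => hmin hy⟩
      have hs0 : 0 < min (κ / 2) (r x) := lt_min (by linarith) (hf.pos x)
      have hsx : min (κ / 2) (r x) ≤ r x := min_le_right _ _
      have hsκ : min (κ / 2) (r x) < κ := lt_of_le_of_lt (min_le_left _ _) (by linarith)
      obtain ⟨g1, -, g3⟩ := f8 (min (κ / 2) (r x)) x hs0 hsx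
      have hzK : R (min (κ / 2) (r x)) x ∉ K := by
        intro hz
        have := hκK _ hz
        rw [g3] at this
        linarith
      have hj : JoinedIn (Dn r R x) x (R (min (κ / 2) (r x)) x) := by
        refine (f4 (min (κ / 2) (r x)) x hs0).mono ?_
        rintro z ⟨σ, hσ, rfl⟩
        have hσ0 : 0 < σ := lt_of_lt_of_le hs0 hσ
        have e1 := hf.rR σ x hσ0
        refine ⟨by rw [e1]; exact min_le_right _ _, ?_⟩
        rw [e1]
        rcases le_total σ (r x) with h7 | h7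
        · rw [min_eq_left h7]
        · rw [min_eq_right h7, hf.Rid σ x h7, hf.Rid (r x) x le_rfl]
      rw [d3 _ _ hβ₂ _ _ hj]
      refine (d2 _ _ (m1 _ _ 3 ?_ hcK)).2.2
      intro y hy hyz
      rw [Set.mem_singleton_iff] at hyz
      rw [hyz] at hy
      exact hzK hy
    have e1 : (b₁ - b₁') - (b₂ - b₂') = τ - τ' := by
      rw [← hb, ← hb']
      abel
    have e2 := (d1 x).2.1 _ ((m5 _ _ 3 hcU).1 hβ₁) _ ((m5 _ _ 3 hcD).1 hβ₂)
    have e3 := (d1 x).2.1 _ c1 _ c2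
    rw [e1, z1, z2, e3] at e2
    linarith

end Pool.Agent.Helper10.SF
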