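import Pool.Agent.Helper58.SF.StN

/-!
# Project SF (MP_a45945_gt), module TRM: from a chain of paths to a chain of arcs
-/

set_option autoImplicit false

namespace Pool.Agent.Helper10.SF

open Set Topology Pool.Agent.Helper13.TR Pool.Agent.Helper58.SF
open Pool.Agent.Helper13.TW (IsArc Spl IsSCC dch Chn Splt GT CSy MP Val LR MCell StARB StARX StSCL
  StUAR StINF StLIN StAC1 StSDM StLRC StBF StMD1 StMD2 StMD3)

/-- adjustment of a pair of arcs -/
private lemma pair (hB : StARB) {S : Type} [TopologicalSpace S] [T2Space S] (A B : Set S)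
    (p q s : S) (hA : IsArc A p q) (hBB : IsArc B q s) (hp : p ∉ B) (hs : s ∉ A) :
    ∃ (v : S) (A' B' : Set S), IsArc A' p v ∧ IsArc B' v s ∧ A' ⊆ A ∧ B' ⊆ B ∧ A' ∩ B' = {v} := by
  obtain ⟨b1, b2, -, b4, -, -⟩ := hB
  obtain ⟨-, hBc, hqB, hsB, -⟩ := b1 S B q s hBB
  obtain ⟨-, -, -, hqA, -⟩ := b1 S A p q hA
  obtain ⟨v, hv, A', hA'A, hA', hAB⟩ := b4 S A B p q hA hBc.isClosed hp ⟨q, hqA, hqB⟩
  have hvA' : v ∈ A' := by
    have : v ∈ A' ∩ B := by rw [hAB]; rfl
    exact this.1
  have hvs : v ≠ s := by
    rintro rfl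
    exact hs (hA'A hvA')
  obtain ⟨B', hB', hB'B⟩ : ∃ B' : Set S, IsArc B' v s ∧ B' ⊆ B := by
    by_cases hvq : v = q
    · exact ⟨B, by rw [hvq]; exact hBB, le_rfl⟩
    · obtain ⟨D₁, D₂, -, h2, h3, -⟩ := b2 S B q s v hBB hv hvq hvs
      exact ⟨D₂, h2, by rw [← h3]; exact subset_union_right⟩
  have hvB' : v ∈ B' := (b1 S B' v s hB').2.2.1
  refine ⟨v, A', B', hA', hB', hA'A, hB'B, ?_⟩
  apply Set.Subset.antisymm
  · intro z hz
    have : z ∈ A' ∩ B := ⟨hz.1, hB'B hz.2⟩
    rwa [hAB] at this
  · rintro _ rfl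
    exact ⟨hvA', hvB'⟩

theorem hTRM : StARX → StARB → StTRM := by
  intro hX hB S _ _ n x G hn h1 h2 h3 h4
  have b1 := hB.1
  have src : ∀ i < n, x i ∈ G i := fun i hi => (h1 i hi).source_mem
  have tgt : ∀ i < n, x (i + 1) ∈ G i := fun i hi => (h1 i hi).target_mem
  have dis : ∀ i j : ℕ, i + 2 ≤ j → j < n → ∀ z, z ∈ G i → z ∈ G j → False :=
    fun i j hij hj z hz hz' => (Set.disjoint_left.1 (h2 i j hij hj)) hz hz'
  -- consecutive points are different
  have hne : ∀ i < n, x i ≠ x (i + 1) := by
    intro i hi e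
    rcases Nat.eq_zero_or_pos i with rfl | hi0
    · apply h3
      rw [e]
      exact src 1 (by omega)
    · obtain ⟨j, rfl⟩ : ∃ j, i = j + 1 := ⟨i - 1, by omega⟩
      have t1 : x (j + 1) ∈ G j := tgt j (by omega)
      by_cases hj : j + 2 < n
      · refine dis j (j + 2) le_rfl hj _ t1 ?_
        rw [e]
        exact src (j + 2) hj
      · have hj2 : n = j + 2 := by omega
        apply h4
        rw [hj2]
        show x (j + 1 + 1) ∈ G j
        rw [← e]
        exact t1
  have harc : ∀ i : ℕ, ∃ D : Set S, i < n → D ⊆ G i ∧ IsArc D (x i) (x (i + 1)) := by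
    intro i
    by_cases hi : i < n
    · obtain ⟨D, hD, hD2⟩ := hX S (G i) (x i) (x (i + 1)) (h1 i hi) (hne i hi)
      exact ⟨D, fun _ => ⟨hD, hD2⟩⟩
    · exact ⟨∅, fun h => absurd h hi⟩
  choose α hα using harc
  -- the adjustment of the pairs
  have key : ∀ m : ℕ, m < n → ∃ (y : ℕ → S) (β : ℕ → Set S), y 0 = x 0 ∧
      (∀ i, m < i → y i = x i) ∧ (∀ i < n, IsArc (β i) (y i) (y (i + 1)) ∧ β i ⊆ G i) ∧
      (∀ i, i + 1 ≤ m → β i ∩ β (i + 1) = {y (i + 1)}) := by
    intro m
    induction m with
    | zero =>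
      intro _
      exact ⟨x, α, rfl, fun _ _ => rfl, fun i hi => ⟨(hα i hi).2, (hα i hi).1⟩,
        fun i hi => absurd hi (by omega)⟩
    | succ m ih =>
      intro hm
      obtain ⟨y, β, y0, yx, hβ, hint⟩ := ih (by omega)
      have a1 := hβ m (by omega)
      have a2 := hβ (m + 1) hm
      have hp : y m ∉ β (m + 1) := by
        intro hy
        have hy' := a2.2 hy
        rcases Nat.eq_zero_or_pos m with rfl | hm0
        · rw [y0] at hy'
          exact h3 hy'
        · obtain ⟨j, rfl⟩ : ∃ j, m = j + 1 := ⟨m - 1, by omega⟩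
          have c1 := hβ j (by omega)
          have c2 : y (j + 1) ∈ β j := (b1 S _ _ _ c1.1).2.2.2.1
          exact dis j (j + 2) le_rfl hm _ (c1.2 c2) hy'
      have hs : y (m + 1 + 1) ∉ β m := by
        intro hy
        have hy' := a1.2 hy
        rw [yx (m + 1 + 1) (by omega)] at hy'
        by_cases hj : m + 2 < n
        · exact dis m (m + 2) le_rfl hj _ hy' (src (m + 2) hj)
        · have hj2 : n = m + 2 := by omega
          apply h4
          rw [hj2]
          exact hy'
      obtain ⟨v, A', B', hA', hB', hA'A, hB'B, hAB⟩ := pair hB _ _ _ _ _ a1.1 a2.1 hp hs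
      have hyA' : y m ∈ A' := (b1 S _ _ _ hA').2.2.1
      refine ⟨fun i => if i = m + 1 then v else y i,
        fun i => if i = m then A' else if i = m + 1 then B' else β i, ?_, ?_, ?_, ?_⟩
      · show (if (0 : ℕ) = m + 1 then v else y 0) = x 0
        rw [if_neg (by omega)]
        exact y0
      · intro i hi
        show (if i = m + 1 then v else y i) = x i
        rw [if_neg (by omega)]
        exact yx i (by omega)
      · intro i hi
        show IsArc (if i = m then A' else if i = m + 1 then B' else β i)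
          (if i = m + 1 then v else y i) (if i + 1 = m + 1 then v else y (i + 1)) ∧
          (if i = m then A' else if i = m + 1 then B' else β i) ⊆ G i
        by_cases c1 : i = m
        · subst c1
          rw [if_pos rfl, if_neg (by omega), if_pos rfl]
          exact ⟨hA', hA'A.trans a1.2⟩
        · by_cases c2 : i = m + 1
          · subst c2
            rw [if_neg (by omega), if_pos rfl, if_pos rfl, if_neg (by omega)]
            exact ⟨hB', hB'B.trans a2.2⟩
          · rw [if_neg c1, if_neg c2, if_neg c2, if_neg (by omega)]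
            exact hβ i hi
      · intro i hi
        show (if i = m then A' else if i = m + 1 then B' else β i) ∩
          (if i + 1 = m then A' else if i + 1 = m + 1 then B' else β (i + 1)) =
          {if i + 1 = m + 1 then v else y (i + 1)}
        by_cases c1 : i = m
        · subst c1
          rw [if_pos rfl, if_neg (by omega), if_pos rfl, if_pos rfl]
          exact hAB
        · rw [if_neg c1, if_neg (show i ≠ m + 1 by omega)]
          rw [if_neg (show i + 1 ≠ m + 1 by omega), if_neg (show i + 1 ≠ m + 1 by omega)]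
          have c3 := hint i (by omega)
          by_cases c4 : i + 1 = m
          · rw [if_pos c4]
            rw [c4] at c3 ⊢
            apply Set.Subset.antisymm
            · intro z hz
              rw [← c3]
              exact ⟨hz.1, hA'A hz.2⟩
            · rintro _ rfl
              have : y m ∈ β i ∩ β m := by rw [c3]; rfl
              exact ⟨this.1, hyA'⟩
          · rw [if_neg c4]
            exact c3
  obtain ⟨y, β, y0, yx, hβ, hint⟩ := key (n - 1) (by omega)
  have yn : y n = x n := yx n (by omega)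
  have hint' : ∀ i : ℕ, i + 1 < n → β i ∩ β (i + 1) = {y (i + 1)} :=
    fun i hi => hint i (by omega)
  -- the union
  have hun : ∀ k : ℕ, k < n → IsArc (⋃ i ∈ Finset.range (k + 1), β i) (y 0) (y (k + 1)) := by
    intro k
    induction k with
    | zero =>
      intro hk
      have e : (⋃ i ∈ Finset.range (0 + 1), β i) = β 0 := by simp
      rw [e]
      exact (hβ 0 hk).1
    | succ k ih =>
      intro hk
      have i1 := ih (by omega)
      have e : (⋃ i ∈ Finset.range (k + 1 + 1), β i) =
          (⋃ i ∈ Finset.range (k + 1), β i) ∪ β (k + 1) := by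
        rw [Finset.range_add_one, Finset.set_biUnion_insert, Set.union_comm]
      rw [e]
      refine hB.2.2.1 S _ _ _ _ _ i1 (hβ (k + 1) hk).1 ?_
      apply Set.Subset.antisymm
      · rintro z ⟨hz, hz'⟩
        simp only [Set.mem_iUnion, Finset.mem_range] at hz
        obtain ⟨i, hi, hz⟩ := hz
        by_cases c : i = k
        · subst c
          rw [← hint' i hk]
          exact ⟨hz, hz'⟩
        · exact (dis i (k + 1) (by omega) hk z ((hβ i (by omega)).2 hz)
            ((hβ (k + 1) hk).2 hz')).elim
      · rintro _ rfl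
        have : y (k + 1) ∈ β k ∩ β (k + 1) := by rw [hint' k hk]; rfl
        refine ⟨?_, this.2⟩
        simp only [Set.mem_iUnion, Finset.mem_range]
        exact ⟨k, by omega, this.1⟩
  refine ⟨y, β, y0, yn, hβ, hint', ?_⟩
  have f := hun (n - 1) (by omega)
  rw [show n - 1 + 1 = n by omega, y0, yn] at f
  exact f

end Pool.Agent.Helper10.SF
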