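import Pool.Agent.Helper58.SF.StA

/-!
# Project SF (MP_a45945_gt), module TUB: the sets above a set are homologically invisible
-/

set_option autoImplicit false

namespace Pool.Agent.Helper10.SF

open Set Topology Pool.Agent.Helper13.TR Pool.Agent.Helper58.SF
open Pool.Agent.Helper13.TW (IsArc Spl IsSCC dch Chn Splt GT CSy MP Val LR MCell StARB StARX StSCL
  StUAR StINF StLIN StAC1 StSDM)

private lemma push_id {P : Type} [TopologicalSpace P] (n : ℕ) (c : Ch P n) :
    push (ContinuousMap.id P) n c = c := by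
  unfold push
  have h : (fun σ : Sx P n => (ContinuousMap.id P).comp σ) = id := by
    funext σ
    exact ContinuousMap.id_comp σ
  rw [h, Finsupp.lmapDomain_apply, Finsupp.mapDomain_id]

private lemma push_cin {P : Type} [TopologicalSpace P] (g : C(P, P)) (S : Set P)
    (hg : ∀ y, g y ∈ S) (n : ℕ) (c : Ch P n) : push g n c ∈ cin S n := by
  classical
  unfold push cin
  rw [Finsupp.mem_supported, Finsupp.lmapDomain_apply]
  intro σ' hσ'
  have h := Finsupp.mapDomain_support (Finset.mem_coe.1 hσ')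
  obtain ⟨σ, _, rfl⟩ := Finset.mem_image.1 h
  rintro y ⟨x, rfl⟩
  exact hg _

private lemma tpos (u t : ℝ) (hu0 : 0 ≤ u) (hu1 : u ≤ 1) (ht : 0 < t) :
    0 < (1 - u) * 1 + u * (t / 2) := by
  rcases lt_or_eq_of_le hu1 with h | h
  · have : 0 ≤ u * (t / 2) := by positivity
    linarith
  · subst h
    linarith

/-- the homotopy from the identity to the flow down to the level `t / 2` -/
private noncomputable def Hm {P : Type} [TopologicalSpace P] (r : P → ℝ) (R : ℝ → P → P)
    (h : Flow P r R) (t : ℝ) (ht : 0 < t) (g : C(P, P)) (hg : ∀ y, g y = R (t / 2) y) :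
    (ContinuousMap.id P).Homotopy g where
  toFun p := R ((1 - (p.1 : ℝ)) * 1 + (p.1 : ℝ) * (t / 2)) p.2
  continuous_toFun := by
    have h1 : Continuous (fun p : unitInterval × P =>
        (((1 - (p.1 : ℝ)) * 1 + (p.1 : ℝ) * (t / 2), p.2) : ℝ × P)) := by fun_prop
    exact h.Rc.comp_continuous h1 (fun p => tpos _ t p.1.2.1 p.1.2.2 ht)
  map_zero_left x := by
    have h2 : (1 - ((0 : unitInterval) : ℝ)) * 1 + ((0 : unitInterval) : ℝ) * (t / 2) = 1 := by
      simp
    show R ((1 - ((0 : unitInterval) : ℝ)) * 1 + ((0 : unitInterval) : ℝ) * (t / 2)) x = x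
    rw [h2]
    exact h.Rid 1 x (h.lt x).le
  map_one_left x := by
    have h2 : (1 - ((1 : unitInterval) : ℝ)) * 1 + ((1 : unitInterval) : ℝ) * (t / 2) = t / 2 := by
      simp
    show R ((1 - ((1 : unitInterval) : ℝ)) * 1 + ((1 : unitInterval) : ℝ) * (t / 2)) x = g x
    rw [h2, hg]

private lemma stay {P : Type} [TopologicalSpace P] (r : P → ℝ) (R : ℝ → P → P)
    (h : Flow P r R) (t : ℝ) (A : Set P) (ht : 0 < t) (τ : ℝ) (hτ : 0 < τ) (y : P)
    (hy : y ∉ UpS r R t A) : R τ y ∉ UpS r R t A := by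
  rintro ⟨h1, h2⟩
  have h3 := h.rR τ y hτ
  rw [h3] at h1
  have h4 : t ≤ τ := le_trans h1 (min_le_left _ _)
  have h5 : t ≤ r y := le_trans h1 (min_le_right _ _)
  rw [h.RR t τ y ht h4] at h2
  exact hy ⟨h5, h2⟩

theorem hTUB : StPRI → StMON → StFLW → StTUB := by
  intro hPRI hMON hFLW P _ _ r R h t A k ht
  have ht2 : 0 < t / 2 := by linarith
  have hc := (hFLW P r R h).1 (t / 2) ht2
  let g : C(P, P) := ⟨R (t / 2), hc⟩
  have hg : ∀ y, g y = R (t / 2) y := fun _ => rfl
  obtain ⟨Q, q1, q2, q3⟩ := hPRI P P (ContinuousMap.id P) g (Hm r R h t ht g hg)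
  have hgA : ∀ y, g y ∈ (UpS r R t A)ᶜ := by
    rintro y ⟨h1, _⟩
    rw [hg, h.rR (t / 2) y ht2] at h1
    have := le_trans h1 (min_le_left _ _)
    linarith
  have hcar : ∀ (n : ℕ), ∀ c ∈ cin (UpS r R t A)ᶜ n, Q n c ∈ cin (UpS r R t A)ᶜ (n + 1) := by
    intro n c hc
    refine (hMON P).1 _ _ (n + 1) ?_ (q3 _ n c hc)
    rintro y ⟨x, hx, u, rfl⟩
    exact stay r R h t A ht _ (tpos _ t u.2.1 u.2.2 ht) x hx
  have key : ∀ n : ℕ, ∀ c : Ch P n, push g n c ∈ cin (UpS r R t A)ᶜ n :=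
    fun n c => push_cin g _ hgA n c
  intro c hcyc
  cases k with
  | zero =>
    have e := q1 c
    rw [push_id] at e
    have e2 : c = push g 0 c + bd 0 (-(Q 0 c)) := by
      rw [map_neg, e]
      abel
    rw [e2]
    exact Submodule.add_mem_sup (key 0 c) ⟨_, rfl⟩
  | succ n =>
    have e := q2 n c
    rw [push_id] at e
    have hb : bd n c ∈ cin (UpS r R t A)ᶜ n := hcyc
    have e2 : c = (push g (n + 1) c - Q n (bd n c)) + bd (n + 1) (-(Q (n + 1) c)) := by
      rw [map_neg]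
      have e3 : bd (n + 1) (Q (n + 1) c) = push g (n + 1) c - c - Q n (bd n c) := by
        rw [← e]
        abel
      rw [e3]
      abel
    rw [e2]
    exact Submodule.add_mem_sup (Submodule.sub_mem _ (key _ _) (hcar n _ hb)) ⟨_, rfl⟩

end Pool.Agent.Helper10.SF
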